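import Pool.Agent.P.MP_9167e9_an.StW

/-! Abstract lemmas on tree-like wall spaces used by the module DE. -/

noncomputable section
open scoped Classical

namespace Pool.Agent.P.MP_9167e9_an.DeP

variable {X J : Type} {C : Type 1} [Group X]

/-- The hypotheses: a small cancellation wall space with unique geodesics. -/
structure TL (w : WS X J C) : Prop where
  pre : PreOut w.toPreWS
  out : WSOut w
  gu : ∀ x y z z', w.d x y = w.d x z + w.d z y → w.d x y = w.d x z' + w.d z' y →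
    w.d x z = w.d x z' → z = z'
  two : ∀ a x y z, a ∈ w.W x y → a ∈ w.W x z → a ∉ w.W y z

namespace TL

variable {w : WS X J C}

theorem pi_mem (Q : C) (x : X) : w.π Q x ∈ w.cell Q := (w.π_gate Q x).1

theorem pi_d (Q : C) (x : X) {c : X} (hc : c ∈ w.cell Q) :
    w.d x c = w.d x (w.π Q x) + w.d (w.π Q x) c := (w.π_gate Q x).2 c hc

theorem W_comm {a : J} {x y : X} : a ∈ w.W x y ↔ a ∈ w.W y x := by
  rw [w.mem_W, w.mem_W, ne_comm]

theorem ac_inv (B : C) (k : X) : w.ac (w.ac B k⁻¹) k = B := by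
  rw [w.ac_mul, inv_mul_cancel, w.ac_one]

theorem ac_inv' (B : C) (k : X) : w.ac (w.ac B k) k⁻¹ = B := by
  rw [w.ac_mul, mul_inv_cancel, w.ac_one]

theorem g_pos (Q : C) : 1000 ≤ w.g Q := by
  have h1 := w.θ_pos Q
  have h2 := w.big Q
  omega

variable (h : TL w)
include h

theorem d_self (x : X) : w.d x x = 0 := (h.pre.d_zero x x).2 rfl

theorem pi_self {Q : C} {x : X} (hx : x ∈ w.cell Q) : w.π Q x = x :=
  h.pre.gate_uniq _ x _ _ (w.π_gate Q x) ⟨hx, fun c _ => by rw [h.d_self, zero_add]⟩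

theorem conv {Q : C} {x y z : X} (hx : x ∈ w.cell Q) (hy : y ∈ w.cell Q)
    (hz : w.d x y = w.d x z + w.d z y) : z ∈ w.cell Q :=
  h.pre.convex _ (fun u => ⟨_, w.π_gate Q u⟩) x hx y hy z hz

theorem lip (Q : C) (x y : X) : w.d (w.π Q x) (w.π Q y) ≤ w.d x y :=
  Finset.card_le_card fun a ha =>
    ((h.pre.gate_W _ x y _ _ (w.π_gate Q x) (w.π_gate Q y) a).1 ha).1

theorem two_pts {Q Q' : C} {x z : X} (hx : x ∈ w.cell Q) (hz : z ∈ w.cell Q)
    (hx' : x ∈ w.cell Q') (hz' : z ∈ w.cell Q') (hd : w.θ Q < w.d x z) : Q = Q' := by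
  by_contra hne
  have := w.ax2 Q Q' x z hne hx' hz'
  rw [h.pi_self hx, h.pi_self hz] at this
  omega

theorem onseg {x a b z : X} (ha : w.d x b = w.d x a + w.d a b)
    (hz : w.d x b = w.d x z + w.d z b) (hle : w.d x z ≤ w.d x a) :
    w.d x a = w.d x z + w.d z a := by
  obtain ⟨z', h1, h2⟩ := h.pre.between x a _ hle
  have h3 := h.pre.d_tri z' a b
  have h4 := h.pre.d_tri x z' b
  have : z = z' := h.gu x b z z' hz (by omega) h1.symm
  subst this
  exact h2

theorem share {Q Q' : C} {x a a' b : X} (hx : x ∈ w.cell Q) (ha : a ∈ w.cell Q)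
    (hx' : x ∈ w.cell Q') (ha' : a' ∈ w.cell Q') (h1 : w.d x b = w.d x a + w.d a b)
    (h2 : w.d x b = w.d x a' + w.d a' b) (t1 : w.θ Q < w.d x a) (t2 : w.θ Q' < w.d x a') :
    Q = Q' := by
  rcases le_total (w.d x a) (w.d x a') with hle | hle
  · exact h.two_pts hx ha hx' (h.conv hx' ha' (h.onseg h2 h1 hle)) t1
  · exact (h.two_pts hx' ha' hx (h.conv hx ha (h.onseg h1 h2 hle)) t2).symm

theorem min_geo {B : C} {x : X} (hx : w.Min B x) (Q : C) {κ : X} (hκ : κ ∈ w.K Q) :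
    w.run Q (w.π B x) x ≤ w.d (w.π Q (w.π B x)) (w.π Q x * κ) + w.θ Q := by
  refine h.out.geo _ _ (fun k hk => ?_) Q κ hκ
  have h1 : w.d (w.π B x) x ≤ w.d (w.π B (x * k)) (x * k) := hx k hk
  have h2 := pi_d (w := w) B (x * k) (pi_mem B x)
  rw [h.pre.d_comm (w.π B (x * k))] at h1
  rw [h.pre.d_comm _ (x * k)]
  omega

theorem run_cell {B : C} {x : X} (hx : x ∈ w.cell B) (Q : C) : w.run Q (w.π B x) x = 0 := by
  rw [h.pi_self hx]
  exact h.d_self _

theorem good_cell {B : C} {x : X} (hx : x ∈ w.cell B) : w.Good B x := by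
  intro Q k _
  rw [h.run_cell hx]
  omega

/-- A good point of the orbit of a point of `B` lies in `B`. -/
theorem good_mem {B : C} {x k : X} (hx : x ∈ w.cell B) (hk : k ∈ w.KK)
    (hg : w.Good B (x * k)) : x * k ∈ w.cell B := by
  rcases h.out.first B x k hk (h.good_cell hx) hg with hK | ⟨Q, hQ, -⟩
  · have := w.cell_ac B x k hx
    rwa [w.K_fix B k hK] at this
  · unfold WS.Heavy at hQ
    rw [h.run_cell hx] at hQ
    have := g_pos (w := w) Q
    omega

theorem branch (y b b' : X) : ∃ y', w.d y b = w.d y y' + w.d y' b ∧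
    w.d y b' = w.d y y' + w.d y' b' ∧
    ∀ z, w.d y' b = w.d y' z + w.d z b → w.d y' b' = w.d y' z + w.d z b' → z = y' := by
  let p : ℕ → Prop := fun n => ∃ y', w.d y b = w.d y y' + w.d y' b ∧
    w.d y b' = w.d y y' + w.d y' b' ∧ w.d y y' = n
  have p0 : p 0 := ⟨y, by rw [h.d_self, zero_add], by rw [h.d_self, zero_add], h.d_self y⟩
  obtain ⟨y', h1, h2, h3⟩ := Nat.findGreatest_spec (P := p) (Nat.zero_le (w.d y b)) p0
  refine ⟨y', h1, h2, fun z hz hz' => ?_⟩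
  have t1 := h.pre.d_tri y y' z
  have t2 := h.pre.d_tri y z b
  have t3 := h.pre.d_tri y z b'
  have hp : p (w.d y z) := ⟨z, by omega, by omega, rfl⟩
  have := Nat.le_findGreatest (P := p) (n := w.d y b) (by omega) hp
  exact ((h.pre.d_zero y' z).1 (by omega)).symm

/-- A heavy cell: its gate of `y` lies on the geodesic to `B`. -/
theorem heavy_btw {B Q : C} {y : X} (hQ : w.Heavy B Q y) :
    w.d y (w.π B y) = w.d y (w.π Q y) + w.d (w.π Q y) (w.π B y) := by
  unfold WS.Heavy at hQ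
  have h1 := w.big Q
  have h0 := w.θ_pos Q
  have h2 := h.out.pass Q (w.π B y) y (by omega)
  have h3 := pi_d (w := w) Q (w.π B y) (pi_mem Q y)
  unfold WS.run at h2
  rw [h.pre.d_comm y (w.π B y), h.pre.d_comm y (w.π Q y), h.pre.d_comm (w.π Q y) (w.π B y)]
  omega

theorem cell_btw {Q : C} {y : X} (hy : y ∈ w.cell Q) (b : X) :
    w.d y b = w.d y (w.π Q b) + w.d (w.π Q b) b ∧ w.run Q b y = w.d y (w.π Q b) := by
  have h3 := pi_d (w := w) Q b hy
  unfold WS.run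
  rw [h.pi_self hy, h.pre.d_comm y b, h.pre.d_comm y (w.π Q b), h.pre.d_comm (w.π Q b) b]
  omega

/-- Two cells in which good lifts run for a long time coincide. -/
theorem disj {B Q Q' : C} {y k : X} (hk : k ∈ w.KK) (hg : w.Good B y) (hg' : w.Good B (y * k))
    (hy : y ∈ w.cell Q) (hy' : y ∈ w.cell Q') (r : 10 * w.θ Q ≤ w.run Q (w.π B y) y)
    (r' : 10 * w.θ Q' ≤ w.run Q' (w.π (w.ac B k⁻¹) y) y) : Q = Q' := by
  have p1 := w.θ_pos Q
  have p2 := w.θ_pos Q'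
  obtain ⟨e1, f1⟩ := h.cell_btw hy (w.π B y)
  obtain ⟨e2, f2⟩ := h.cell_btw hy' (w.π (w.ac B k⁻¹) y)
  by_cases hK : k ∈ w.K B
  · rw [w.K_fix B _ (inv_mem hK)] at e2 f2 r'
    exact h.share hy (pi_mem Q _) hy' (pi_mem Q' _) e1 e2 (by omega) (by omega)
  have hgB : w.Good (w.ac B k⁻¹) y := by
    have := h.out.good_ac B _ k⁻¹ hg'
    rwa [mul_inv_cancel_right] at this
  obtain ⟨y', b1, b2, b3⟩ := h.branch y (w.π B y) (w.π (w.ac B k⁻¹) y)
  obtain ⟨s1, s2⟩ := h.out.good_sub B y y'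
    (by rw [h.pre.d_comm _ y, h.pre.d_comm _ y', h.pre.d_comm y' y]; omega) hg
  obtain ⟨s3, s4⟩ := h.out.good_sub (w.ac B k⁻¹) y y'
    (by rw [h.pre.d_comm _ y, h.pre.d_comm _ y', h.pre.d_comm y' y]; omega) hgB
  have s5 : w.Good B (y' * k) := by
    have := h.out.good_ac _ _ k s4
    rwa [ac_inv] at this
  obtain ⟨R, hR, hR'⟩ := (h.out.first B y' k hk s2 s5).resolve_left hK
  have hyR : y' ∈ w.cell R := by
    have u1 := h.heavy_btw hR
    have u2 := h.heavy_btw hR'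
    rw [s1] at u1
    rw [s3] at u2
    rw [← b3 _ u1 u2]
    exact pi_mem R _
  by_contra hne
  obtain ⟨z, z1, z2⟩ := h.pre.between y y' (min (w.d y y')
    (min (w.d y (w.π Q (w.π B y))) (w.d y (w.π Q' (w.π (w.ac B k⁻¹) y))))) (min_le_left _ _)
  have t1 := h.pre.d_tri z y' (w.π B y)
  have t2 := h.pre.d_tri y z (w.π B y)
  have t3 := h.pre.d_tri z y' (w.π (w.ac B k⁻¹) y)
  have t4 := h.pre.d_tri y z (w.π (w.ac B k⁻¹) y)
  have zQ : z ∈ w.cell Q := h.conv hy (pi_mem Q _) (h.onseg e1 (by omega) (by omega))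
  have zQ' : z ∈ w.cell Q' := h.conv hy' (pi_mem Q' _) (h.onseg e2 (by omega) (by omega))
  have n1 : w.d y z ≤ w.θ Q := not_lt.1 fun hl => hne (h.two_pts hy zQ hy' zQ' hl)
  have n2 : w.d y z ≤ w.θ Q' := not_lt.1 fun hl => hne (h.two_pts hy' zQ' hy zQ hl).symm
  have o1 := h.onseg e1 b1 (by omega)
  have o2 := h.onseg e2 b2 (by omega)
  obtain ⟨e3, f3⟩ := h.cell_btw hyR (w.π B y)
  obtain ⟨e4, f4⟩ := h.cell_btw hyR (w.π (w.ac B k⁻¹) y)
  unfold WS.Heavy at hR hR'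
  rw [s1] at hR
  rw [s3] at hR'
  have p3 := w.θ_pos R
  have p4 := w.big R
  have q1 : Q = R := h.share (h.conv hy (pi_mem Q _) o1) (pi_mem Q (w.π B y)) hyR (pi_mem R _)
    (by omega) e3 (by omega) (by omega)
  have q2 : Q' = R := h.share (h.conv hy' (pi_mem Q' _) o2) (pi_mem Q' (w.π (w.ac B k⁻¹) y)) hyR
    (pi_mem R _) (by omega) e4 (by omega) (by omega)
  exact hne (q1.trans q2.symm)

/-- A point of a cell that is closest in its orbit to the lowest point is good. -/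
theorem small {B Q : C} {z y : X} (hne : Q ≠ B) (hz : z ∈ w.cell Q) (hm : w.Min B z)
    (hl : ∀ z' ∈ w.cell Q, (w.WB B z).card ≤ (w.WB B z').card) (hy : y ∈ w.cell Q)
    (hc : ∀ κ ∈ w.K Q, w.d z y ≤ w.d z (y * κ)) :
    w.Good B y ∧ w.d z y ≤ w.run Q (w.π B y) y + w.θ Q := by
  have e0 := pi_d (w := w) Q (w.π B z) hz
  have e1 := (h.out.good_sub B z _ e0 (h.out.min_good B z hm)).1
  have e2 : w.d (w.π B z) z ≤ w.d (w.π B (w.π Q (w.π B z))) (w.π Q (w.π B z)) :=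
    hl _ (pi_mem Q (w.π B z))
  rw [e1] at e2
  have e3 : w.π Q (w.π B z) = z := (h.pre.d_zero _ _).1 (by omega)
  have e4 := w.ax2 Q B _ _ hne (pi_mem B z) (pi_mem B y)
  rw [e3] at e4
  have e5 : w.run Q (w.π B y) y = w.d (w.π Q (w.π B y)) y := by
    unfold WS.run
    rw [h.pi_self hy]
  refine ⟨fun R κ hκ => ?_, ?_⟩
  · have p := w.big R
    by_cases hB : R = B
    · subst hB
      unfold WS.run
      rw [h.pi_self (pi_mem R y), h.d_self]
      omega
    by_cases hQ : R = Q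
    · subst hQ
      have t1 := h.pre.d_tri (w.π R (w.π B y)) z y
      have t2 := h.pre.d_tri z (w.π R (w.π B y)) (y * κ)
      have t3 := hc κ hκ
      rw [h.pre.d_comm _ z] at t1
      rw [e5, h.pi_self hy]
      omega
    have u1 := w.ax2 R B _ _ hB (pi_mem B z) (pi_mem B y)
    have u2 := w.ax2 R Q _ _ hQ hz hy
    have u3 := h.min_geo hm R hκ
    have u4 := h.pre.d_mul (w.π R y) (w.π R z) κ
    rw [h.pre.d_comm (w.π R y)] at u4
    unfold WS.run at u3 ⊢
    have t1 := h.pre.d_tri (w.π R (w.π B y)) (w.π R (w.π B z)) (w.π R y)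
    have t2 := h.pre.d_tri (w.π R (w.π B z)) (w.π R z) (w.π R y)
    have t3 := h.pre.d_tri (w.π R (w.π B z)) (w.π R (w.π B y)) (w.π R z * κ)
    have t4 := h.pre.d_tri (w.π R (w.π B y)) (w.π R y * κ) (w.π R z * κ)
    rw [h.pre.d_comm (w.π R (w.π B y)) (w.π R (w.π B z))] at t1
    omega
  · have t := h.pre.d_tri z (w.π Q (w.π B y)) y
    omega

/-- The far end of an edge whose wall separates `x` from `b` lies on the geodesic. -/
theorem step_btw {x x' b : X} {a : J} (hW : w.W x x' = {a}) (ha : a ∈ w.W x b) :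
    w.d x x' = 1 ∧ w.d x b = w.d x x' + w.d x' b := by
  have a1 : a ∈ w.W x x' := hW ▸ Finset.mem_singleton_self a
  have d1 : w.d x x' = 1 := by unfold PreWS.d; rw [hW, Finset.card_singleton]
  have a2 := h.two a x x' b a1 ha
  have hs : w.W x' b ⊆ (w.W x b).erase a := fun a' ha' => by
    have hne : a' ≠ a := fun e => a2 (e ▸ ha')
    refine Finset.mem_erase.2 ⟨hne, ?_⟩
    have : a' ∉ w.W x x' := by rw [hW]; simpa using hne
    rw [w.mem_W] at this ha' ⊢
    rw [not_not.1 this]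
    exact ha'
  have c1 := Finset.card_le_card hs
  rw [Finset.card_erase_of_mem ha] at c1
  have c2 := Finset.card_pos.2 ⟨a, ha⟩
  have t := h.pre.d_tri x x' b
  unfold PreWS.d at *
  omega

/-- One step upwards from a minimal point. -/
theorem up {B : C} {x y k : X} {a : J} (hW : w.W y x = {a}) (hm : w.Min B x)
    (h1 : a ∉ w.WB B x) (h2 : ¬ w.Cross a (w.cell B)) (hk : k ∈ w.KK) (hg : w.Good B (y * k)) :
    w.aw a k ∈ w.WB B (y * k) ∨ (w.Good B y ∧ ∃ Q, x ∈ w.cell Q ∧ y ∈ w.cell Q ∧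
      10 * w.θ Q ≤ w.run Q (w.π B y) y ∧ 10 * w.θ Q ≤ w.run Q (w.π B x) x) := by
  have a1 : a ∈ w.W y x := hW ▸ Finset.mem_singleton_self a
  have e : w.π B y = w.π B x := by
    refine (h.pre.d_zero _ _).1 (Finset.card_eq_zero.2 (Finset.eq_empty_of_forall_notMem ?_))
    intro a' ha'
    obtain ⟨u1, u2⟩ := (h.pre.gate_W _ y x _ _ (w.π_gate B y) (w.π_gate B x) a').1 ha'
    rw [hW, Finset.mem_singleton] at u1
    exact h2 (u1 ▸ u2)
  have a2 : a ∈ w.W y (w.π B x) := by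
    unfold WS.WB at h1
    rw [w.mem_W] at h1 a1 ⊢
    rw [not_not.1 h1]
    exact a1
  obtain ⟨d1, d2⟩ := h.step_btw hW a2
  have gy : w.Good B y := fun Q κ hκ => by
    have u1 := h.min_geo hm Q hκ
    have u2 := h.lip Q y x
    have u3 := h.pre.d_mul (w.π Q y) (w.π Q x) κ
    have t1 := h.pre.d_tri (w.π Q (w.π B x)) (w.π Q x) (w.π Q y)
    have t2 := h.pre.d_tri (w.π Q (w.π B x)) (w.π Q y * κ) (w.π Q x * κ)
    have p1 := w.big Q
    have p2 := w.θ_pos Q
    rw [h.pre.d_comm (w.π Q x) (w.π Q y)] at t1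
    rw [e]
    unfold WS.run at u1 ⊢
    omega
  have key : a ∈ w.WB (w.ac B k⁻¹) y → w.aw a k ∈ w.WB B (y * k) := fun ha => by
    have := (h.out.WB_ac _ y k a).2 ha
    rwa [ac_inv] at this
  by_cases ha : a ∈ w.WB (w.ac B k⁻¹) y
  · exact Or.inl (key ha)
  rcases h.out.first B y k hk gy hg with hK | ⟨Q, hQ, hQ'⟩
  · rw [w.K_fix B _ (inv_mem hK)] at ha
    refine (ha ?_).elim
    unfold WS.WB
    rw [e]
    exact W_comm.1 a2
  have u1 := h.heavy_btw hQ
  have u2 := h.heavy_btw hQ'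
  rw [e] at u1
  have yQ : y ∈ w.cell Q := by
    by_contra hn
    have : w.d y (w.π Q y) ≠ 0 := fun h0 => hn ((h.pre.d_zero _ _).1 h0 ▸ pi_mem Q y)
    have o := h.onseg u1 d2 (by omega)
    have t1 := h.pre.d_tri x (w.π Q y) (w.π (w.ac B k⁻¹) y)
    have t2 := h.pre.d_tri y x (w.π (w.ac B k⁻¹) y)
    have := (h.pre.W_add y x (w.π (w.ac B k⁻¹) y) (by omega)).1
    refine ha (W_comm.1 ?_)
    rw [this]
    exact Finset.mem_union_left _ a1
  obtain ⟨e1, f1⟩ := h.cell_btw yQ (w.π B x)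
  unfold WS.Heavy at hQ
  rw [e] at hQ
  have p1 := w.big Q
  have p2 := w.θ_pos Q
  have o := h.onseg e1 d2 (by omega)
  have xQ := h.conv yQ (pi_mem Q _) o
  obtain ⟨-, f2⟩ := h.cell_btw xQ (w.π B x)
  exact Or.inr ⟨gy, Q, xQ, yQ, by rw [e]; omega, by omega⟩

end TL

end Pool.Agent.P.MP_9167e9_an.DeP
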