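import Pool.Agent.P.MP_9167e9_an.StG
import Pool.Agent.P.MP_9167e9_an.De.Geo

/-! The module DE: deep points and parent edges. -/

noncomputable section
open scoped Classical

namespace Pool.Agent.P.MP_9167e9_an

namespace DeP

variable {P : Prm} {F : Set (Cell P)}

theorem mk_eq {x y : FreeGroup P.S} (h : mkG F x = mkG F y) : ∃ k ∈ KG F, y = x * k :=
  ⟨x⁻¹ * y, QuotientGroup.eq.1 h, by rw [mul_inv_cancel_left]⟩

theorem mk_mul (x : FreeGroup P.S) {k : FreeGroup P.S} (hk : k ∈ KG F) :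
    mkG F (x * k) = mkG F x := by
  rw [map_mul, show mkG F k = 1 from (QuotientGroup.eq_one_iff k).2 hk, mul_one]

theorem mk_surj (γ : Gam F) : ∃ x, mkG F x = γ := QuotientGroup.mk'_surjective _ γ

theorem tc_eq {e : Cell P} (he : e ∈ F) (b : BasOut e) {δ δ' : FreeGroup P.S}
    (h : δ' * δ⁻¹ ∈ e.Pg) : tc F e he δ = tc F e he δ' :=
  Subtype.ext (Prod.ext rfl ((b.same δ δ').2 h))

theorem tc_inj {e e' : Cell P} {he : e ∈ F} {he' : e' ∈ F} (b : BasOut e)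
    {δ δ' : FreeGroup P.S} (h : tc F e he δ = tc F e' he' δ') : e = e' ∧ δ' * δ⁻¹ ∈ e.Pg := by
  have h1 : e = e' := congrArg (fun T : TC F => T.1.1) h
  subst h1
  exact ⟨rfl, (b.same δ δ').1 (congrArg (fun T : TC F => T.1.2) h)⟩

theorem tc_ex (Q : TC F) : ∃ e he δ, Q = tc F e he δ := by
  obtain ⟨⟨e, T⟩, he, δ, h⟩ := Q
  exact ⟨e, he, δ, Subtype.ext (Prod.ext rfl h)⟩

variable (w : WS (FreeGroup P.S) (FreeGroup P.S × P.S) (TC F)) (c : Cell P) (hc : c ∈ F)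

/-- Deep points of a copy of a core. -/
def Deep (e : Cell P) (δ γ : Gam F) : Prop :=
  (e = c ∧ (∃ p ∈ c.Pg, δ = mkG F p) ∧ ∃ d, γ = pos F c d) ∨
    ∃ (he : e ∈ F) (y δ' : FreeGroup P.S), mkG F y = γ ∧ mkG F δ' = δ ∧ e.Qc (y * δ'⁻¹) ∧
      w.Good (tc F c hc 1) y ∧ 10 * e.L ≤ w.run (tc F e he δ') (w.π (tc F c hc 1) y) y

/-- A chosen minimal lift. -/
def ch (γ : Gam F) : FreeGroup P.S :=
  Classical.epsilon fun x => mkG F x = γ ∧ w.Min (tc F c hc 1) x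

/-- The top edge of the chosen lift. -/
def Top (γ : Gam F) (l : Lm F) : Prop :=
  ∃ x, (x, l.2) ∈ w.WB (tc F c hc 1) (ch w c hc γ) ∧ ch w c hc γ ∈ w.car (x, l.2) ∧
    l.1 = mkG F (FreeGroup.of l.2 * x)

/-- The parent edge. -/
def par (γ : Gam F) : Option (Lm F) :=
  if h : ∃ l, Top w c hc γ l then some h.choose else none

variable {w c}

theorem tl (t : TInst w) : TL w := ⟨t.pre, t.out, t.tree.geo_uniq, t.tree.two⟩

theorem mem_tc (t : TInst w) {e : Cell P} (he : e ∈ F) (δ x : FreeGroup P.S) :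
    x ∈ w.cell (tc F e he δ) ↔ e.Qc (x * δ⁻¹) := by
  rw [t.cell_eq]
  rfl

theorem θ_tc (t : TInst w) {e : Cell P} (he : e ∈ F) (δ : FreeGroup P.S) :
    w.θ (tc F e he δ) = e.L := t.θ_eq _

theorem ch_spec (t : TInst w) (γ : Gam F) :
    mkG F (ch w c hc γ) = γ ∧ w.Min (tc F c hc 1) (ch w c hc γ) := by
  refine Classical.epsilon_spec (p := fun x => mkG F x = γ ∧ w.Min (tc F c hc 1) x) ?_
  obtain ⟨x, rfl⟩ := mk_surj γ
  obtain ⟨k, hk, hm⟩ := t.out.min_ex (tc F c hc 1) x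
  exact ⟨x * k, mk_mul x (t.KK_eq ▸ hk), hm⟩

theorem other (t : TInst w) {x x0 : FreeGroup P.S} {s : P.S} (h : x ∈ w.car (x0, s)) :
    ∃ x', w.W x x' = {(x0, s)} := by
  rw [t.tree.car_eq] at h
  rcases h with rfl | h
  · exact ⟨_, t.tree.W_edge _ s⟩
  · rw [Set.mem_singleton_iff] at h
    subst h
    refine ⟨x0, ?_⟩
    rw [← t.tree.W_edge x0 s]
    exact Finset.ext fun a => TL.W_comm

theorem par_eq (t : TInst w) {γ : Gam F} {l : Lm F} (h : Top w c hc γ l) :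
    par w c hc γ = some l := by
  have hex : ∃ l, Top w c hc γ l := ⟨l, h⟩
  unfold par
  rw [dif_pos hex]
  obtain ⟨x, a1, a2, a3⟩ := h
  obtain ⟨y, b1, b2, b3⟩ := hex.choose_spec
  obtain ⟨x', hx⟩ := other t a2
  obtain ⟨y', hy⟩ := other t b2
  obtain ⟨d1, d2⟩ := (tl t).step_btw hx (TL.W_comm.1 a1)
  obtain ⟨d3, d4⟩ := (tl t).step_btw hy (TL.W_comm.1 b1)
  have e := (tl t).gu _ _ _ _ d2 d4 (d1.trans d3.symm)
  rw [e, hy, Finset.singleton_inj, Prod.mk.injEq] at hx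
  refine congrArg some (Prod.ext ?_ hx.2)
  rw [a3, b3, hx.1, hx.2]

theorem zz (x : ZMod 2) : x + 1 + 1 = x := by
  revert x
  decide

theorem zz' (x y : ZMod 2) : x + y + y = x := by
  revert x y
  decide

/-- An edge with both ends in a translate of a core is a core edge. -/
theorem core_edge (g : Gam1 F) {e : Cell P} (he : e ∈ F) (b : BasOut e)
    {x δ : FreeGroup P.S} {s : P.S} (h1 : e.Qc (x * δ⁻¹)) (h2 : e.Qc (FreeGroup.of s * x * δ⁻¹)) :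
    ∃ v i z, mkG F (FreeGroup.of s * x) = pos F e (v, z) * mkG F δ ∧
      mkG F x = pos F e ((e.τ i)⁻¹ v, z + 1) * mkG F δ ∧ s = e.lab v i := by
  have h3 := h2
  rw [mul_assoc] at h3
  obtain ⟨e1, e2⟩ := b.edge _ s h1 h3
  refine ⟨e.vx (FreeGroup.of s * (x * δ⁻¹)), P.slot s, pr (FreeGroup.of s * (x * δ⁻¹)), ?_, ?_, e1⟩
  · have := g.pos_cp e he _ h3
    unfold Cell.cp at this
    rw [this, ← map_mul, ← mul_assoc, inv_mul_cancel_right]
  · have f1 : e.vx (FreeGroup.of s * (x * δ⁻¹)) = e.τ (P.slot s) (e.vx (x * δ⁻¹)) :=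
      congrArg Prod.fst e2
    have f2 : pr (FreeGroup.of s * (x * δ⁻¹)) = pr (x * δ⁻¹) + 1 := congrArg Prod.snd e2
    have := g.pos_cp e he _ h1
    unfold Cell.cp at this
    rw [f1, f2, zz, Equiv.Perm.inv_def, Equiv.symm_apply_apply, this, ← map_mul,
      inv_mul_cancel_right]

section

variable (t : TInst w) (g : Gam1 F) (b : ∀ e ∈ F, BasOut e)
include t g b

omit g in
theorem ac_base {p : FreeGroup P.S} (hp : p ∈ c.Pg) : w.ac (tc F c hc 1) p = tc F c hc 1 := by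
  rw [t.ac_eq]
  exact (tc_eq hc (b c hc) (by simpa using hp)).symm

omit g in
theorem not_both {e : Cell P} (he : e ∈ F) {y δ : FreeGroup P.S} {d : c.V × ZMod 2}
    (h1 : mkG F y = pos F c d) (h2 : w.Good (tc F c hc 1) y) :
    ¬ 10 * e.L ≤ w.run (tc F e he δ) (w.π (tc F c hc 1) y) y := by
  obtain ⟨k, hk, rfl⟩ := mk_eq (F := F) (x := c.rp d) h1.symm
  have m : c.rp d ∈ w.cell (tc F c hc 1) := (mem_tc t hc _ _).2 (by simpa using ((b c hc).rp d).1)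
  rw [(tl t).run_cell ((tl t).good_mem m (t.KK_eq ▸ hk) h2)]
  have := w.θ_pos (tc F e he δ)
  rw [θ_tc t] at this
  omega

omit g in
theorem disj {e e' : Cell P} {δ δ' γ : Gam F} (h : Deep w c hc e δ γ) (h' : Deep w c hc e' δ' γ) :
    e = e' ∧ ∃ p ∈ e.Pg, δ' = mkG F p * δ := by
  rcases h with ⟨rfl, ⟨p, hp, rfl⟩, d, rfl⟩ | ⟨he, y, δ1, rfl, rfl, q, gd, r⟩
  · rcases h' with ⟨rfl, ⟨p', hp', rfl⟩, -⟩ | ⟨he', y', δ2, e1, rfl, -, gd', r'⟩
    · exact ⟨rfl, p' * p⁻¹, mul_mem hp' (inv_mem hp), by simp⟩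
    · exact (not_both hc t b he' e1 gd' r').elim
  rcases h' with ⟨rfl, -, d, e1⟩ | ⟨he', y', δ2, e1, rfl, q', gd', r'⟩
  · exact (not_both hc t b he e1 gd r).elim
  obtain ⟨k, hk, rfl⟩ := mk_eq e1.symm
  have hk' : k ∈ w.KK := t.KK_eq ▸ hk
  have m : y ∈ w.cell (tc F e' he' (δ2 * k⁻¹)) := (mem_tc t he' _ _).2 (by simpa [mul_assoc] using q')
  have r2 : w.run (tc F e' he' (δ2 * k⁻¹)) (w.π (w.ac (tc F c hc 1) k⁻¹) y) y =
      w.run (tc F e' he' δ2) (w.π (tc F c hc 1) (y * k)) (y * k) := by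
    rw [← t.out.run_ac (tc F e' he' δ2) _ _ k⁻¹, t.ac_eq e', ← t.out.π_ac, mul_inv_cancel_right]
  have := (tl t).disj hk' gd gd' ((mem_tc t he _ _).2 q) m (by rwa [θ_tc t])
    (by rwa [θ_tc t, r2])
  obtain ⟨rfl, hp⟩ := tc_inj (b e he) this
  refine ⟨rfl, _, hp, ?_⟩
  rw [← map_mul, inv_mul_cancel_right, mk_mul δ2 (inv_mem hk)]

theorem small {e : Cell P} (he : e ∈ F) (δ : Gam F) :
    {d | ¬ Deep w c hc e δ (pos F e d * δ)}.ncard ≤ e.θc := by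
  by_cases hb : e = c ∧ ∃ p ∈ c.Pg, δ = mkG F p
  · obtain ⟨rfl, p, hp, rfl⟩ := hb
    have : {d | ¬ Deep w e hc e (mkG F p) (pos F e d * mkG F p)} = ∅ :=
      Set.eq_empty_of_forall_notMem fun d hd =>
        hd (Or.inl ⟨rfl, ⟨p, hp, rfl⟩, _, g.pos_P e he p hp d⟩)
    rw [this, Set.ncard_empty]
    exact Nat.zero_le _
  obtain ⟨δ0, rfl⟩ := mk_surj δ
  obtain ⟨⟨z, δ1⟩, ⟨z1, z2⟩, hmin⟩ := (measure fun u : FreeGroup P.S × FreeGroup P.S =>
    (w.WB (tc F c hc 1) u.1).card).wf.has_min {u | mkG F u.2 = mkG F δ0 ∧ e.Qc (u.1 * u.2⁻¹)}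
    ⟨(δ0, δ0), rfl, by simpa using Cell.Qc.one⟩
  dsimp only at z1 z2
  have hm : ∀ z' δ', mkG F δ' = mkG F δ0 → e.Qc (z' * δ'⁻¹) →
      (w.WB (tc F c hc 1) z).card ≤ (w.WB (tc F c hc 1) z').card :=
    fun z' δ' u1 u2 => not_lt.1 (hmin (z', δ') ⟨u1, u2⟩)
  have hne : tc F e he δ1 ≠ tc F c hc 1 := fun h => by
    obtain ⟨rfl, hp⟩ := tc_inj (b e he) h
    exact hb ⟨rfl, δ1, by simpa using inv_mem hp, z1.symm⟩
  have hM : w.Min (tc F c hc 1) z := fun k hk =>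
    hm (z * k) (δ1 * k) ((mk_mul δ1 (t.KK_eq ▸ hk)).trans z1) (by simpa [mul_assoc] using z2)
  have hsub : {d | ¬ Deep w c hc e (mkG F δ0) (pos F e d * mkG F δ0)} ⊆
      {d | dC e.τ (e.cp (z * δ1⁻¹)) d ≤ 11 * e.L} := by
    intro d hd
    by_contra hlt
    refine hd (Or.inr ?_)
    obtain ⟨κ, hκ, hκm⟩ := (measure fun κ => w.d z (e.rp d * δ1 * κ)).wf.has_min
      (w.K (tc F e he δ1) : Set _) ⟨1, one_mem _⟩
    have y0 : e.rp d * δ1 ∈ w.cell (tc F e he δ1) :=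
      (mem_tc t he _ _).2 (by simpa using ((b e he).rp d).1)
    have y1 := w.cell_ac _ _ κ y0
    rw [w.K_fix _ κ hκ] at y1
    obtain ⟨s1, s2⟩ := (tl t).small hne ((mem_tc t he _ _).2 z2) hM
      (fun z' hz' => hm z' δ1 z1 ((mem_tc t he _ _).1 hz')) y1
      (fun κ' hκ' => by
        rw [mul_assoc _ κ]
        exact not_lt.1 (hκm _ (mul_mem hκ hκ')))
    have q1 := (mem_tc t he _ _).1 y1
    have hK : κ ∈ KG F := t.KK_eq ▸ (le_iSup w.K (tc F e he δ1) hκ)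
    have c1 : e.cp (e.rp d * δ1 * κ * δ1⁻¹) = d := by
      refine Eq.trans (Eq.symm ?_) ((b e he).rp d).2
      rw [(b e he).cp_eq _ _ ((b e he).rp d).1 q1]
      simpa [mul_assoc] using (t.K_iff e he δ1 κ).1 hκ
    obtain ⟨u, -, u2, u3⟩ := (b e he).unwalk (z * δ1⁻¹) (e.rp d * δ1 * κ * z⁻¹) z2
      (by simpa [mul_assoc] using q1)
    have u4 := (b e he).ht.d_le (e.cp (z * δ1⁻¹)) u
    rw [← u3, u2, ← t.tree.d_eq, t.pre.d_comm,
      show e.rp d * δ1 * κ * z⁻¹ * (z * δ1⁻¹) = e.rp d * δ1 * κ * δ1⁻¹ by group, c1] at u4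
    refine ⟨he, _, δ1, ?_, z1, q1, s1, ?_⟩
    · rw [mk_mul _ hK, map_mul, z1]
      rfl
    · rw [θ_tc t] at s2
      rw [Set.mem_ofPred_eq] at hlt
      omega
  refine ((Set.ncard_le_ncard hsub (Set.toFinite _)).trans ((b e he).ht.ball _ _)).trans ?_
  exact Nat.le_mul_of_pos_right _ (by positivity)

theorem parent (γ : Gam F) (s : P.S) :
    (∃ e δ v i x, Deep w c hc e δ (pos F e (v, x) * δ) ∧
      Deep w c hc e δ (pos F e ((e.τ i)⁻¹ v, x + 1) * δ) ∧ γ = pos F e (v, x) * δ ∧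
      s = e.lab v i) ∨ par w c hc γ = some (γ, s) ∨
      par w c hc ((mkG F (FreeGroup.of s))⁻¹ * γ) = some (γ, s) := by
  obtain ⟨x1, x2⟩ := ch_spec hc t ((mkG F (FreeGroup.of s))⁻¹ * γ)
  obtain ⟨y1, y2⟩ := ch_spec hc t γ
  set x := ch w c hc ((mkG F (FreeGroup.of s))⁻¹ * γ) with hx
  have e0 : mkG F (FreeGroup.of s * x) = γ := by rw [map_mul, x1, mul_inv_cancel_left]
  by_cases h1 : (x, s) ∈ w.WB (tc F c hc 1) x
  · refine Or.inr (Or.inr (par_eq hc t ⟨x, h1, ?_, e0.symm⟩))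
    rw [t.tree.car_eq]
    exact Or.inl rfl
  by_cases h2 : w.Cross (x, s) (w.cell (tc F c hc 1))
  · have hcn : Conn (w.cell (tc F c hc 1)) := by
      have : w.cell (tc F c hc 1) = {x | c.Qc x} := Set.ext fun u => by simp [mem_tc t]
      rw [this]
      exact (b c hc).conn
    obtain ⟨u1, u2⟩ := (t.tree.cross _ hcn x s).1 h2
    obtain ⟨v, i, z, f1, -, f3⟩ :=
      core_edge g hc (b c hc) ((mem_tc t hc _ _).1 u1) ((mem_tc t hc _ _).1 u2)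
    rw [map_one] at f1
    refine Or.inl ⟨c, 1, v, i, z, Or.inl ⟨rfl, ⟨1, one_mem _, (map_one _).symm⟩, _, mul_one _⟩,
      Or.inl ⟨rfl, ⟨1, one_mem _, (map_one _).symm⟩, _, mul_one _⟩, e0.symm.trans f1, f3⟩
  obtain ⟨k, hk, ek⟩ := mk_eq (e0.trans y1.symm)
  have hW : w.W (FreeGroup.of s * x) x = {(x, s)} := by
    rw [← t.tree.W_edge x s]
    exact Finset.ext fun a => TL.W_comm
  rcases (tl t).up hW x2 h1 h2 (t.KK_eq ▸ hk) (ek ▸ t.out.min_good _ _ y2) with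
    h3 | ⟨gy, Q, q1, q2, r1, r2⟩
  · rw [t.tree.aw_eq, ← ek] at h3
    refine Or.inr (Or.inl (par_eq hc t ⟨x * k, h3, ?_, ?_⟩))
    · rw [t.tree.car_eq, ek, mul_assoc]
      exact Or.inr rfl
    · rw [← mul_assoc, ← ek, y1]
  obtain ⟨e, he, δ, rfl⟩ := tc_ex Q
  rw [mem_tc t] at q1 q2
  rw [θ_tc t] at r1 r2
  obtain ⟨v, i, z, f1, f2, f3⟩ := core_edge g he (b e he) q1 q2
  exact Or.inl ⟨e, mkG F δ, v, i, z, Or.inr ⟨he, _, δ, f1, rfl, q2, gy, r1⟩,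
    Or.inr ⟨he, x, δ, f2, rfl, q1, t.out.min_good _ _ x2, r2⟩, e0.symm.trans f1, f3⟩

theorem out : DeOut F c (Deep w c hc) (par w c hc) where
  mem e δ γ h := by
    rcases h with ⟨rfl, ⟨p, hp, rfl⟩, d, rfl⟩ | ⟨he, y, δ1, rfl, rfl, q, -⟩
    · exact ⟨hc, (d.1, d.2 + pr p), by rw [g.pos_P e hc p hp, zz']⟩
    · exact ⟨he, _, by rw [g.pos_cp e he _ q, ← map_mul, inv_mul_cancel_right]⟩
  inv e p hp δ γ h := by
    rcases h with ⟨rfl, ⟨p', hp', rfl⟩, hd⟩ | ⟨he, y, δ1, rfl, rfl, q, gd, r⟩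
    · exact Or.inl ⟨rfl, ⟨p * p', mul_mem hp hp', (map_mul _ _ _).symm⟩, hd⟩
    · have e1 : tc F e he δ1 = tc F e he (p * δ1) := tc_eq he (b e he) (by simpa using hp)
      refine Or.inr ⟨he, y, p * δ1, rfl, map_mul _ _ _, ?_, gd, e1 ▸ r⟩
      rw [← mem_tc t he, ← e1, mem_tc t]
      exact q
  equi p hp e δ γ h := by
    rcases h with ⟨rfl, ⟨p', hp', rfl⟩, d, rfl⟩ | ⟨he, y, δ1, rfl, rfl, q, gd, r⟩
    · exact Or.inl ⟨rfl, ⟨p' * p, mul_mem hp' hp, (map_mul _ _ _).symm⟩, _, g.pos_P e hc p hp d⟩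
    · refine Or.inr ⟨he, y * p, δ1 * p, map_mul _ _ _, map_mul _ _ _,
        by simpa [mul_assoc] using q, ?_, ?_⟩
      · have := t.out.good_ac _ _ p gd
        rwa [ac_base hc t b hp] at this
      · have := t.out.π_ac (tc F c hc 1) y p
        rw [ac_base hc t b hp] at this
        rwa [this, ← t.ac_eq, t.out.run_ac]
  base d := Or.inl ⟨rfl, ⟨1, one_mem _, (map_one _).symm⟩, d, rfl⟩
  disj _ _ _ _ _ h h' := disj hc t b h h'
  small _ he δ := small hc t g b he δ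
  parent := parent hc t g b

end

end DeP

theorem pDe (hT : StTW) (hB : StBas) (_hN : StNum) (hG : StGam1) : StDe := by
  intro P F hF c hc
  obtain ⟨w, t⟩ := hT P F hF
  exact ⟨_, _, DeP.out hc t (hG P F hF)
    fun e he => hB P e (le_trans (by norm_num) hF.j_big) (hF.ok e he)⟩

end Pool.Agent.P.MP_9167e9_an
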